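import Mathlib

/-!
A 4-regular self-complementary graph on 9 vertices, with a vertex lying in exactly 2 triangles
which is fixed by no isomorphism of the graph onto its complement.
-/

namespace Pool.Agent.Results.MP_b6be33_co.NineVertices

open SimpleGraph

/-- `F(G)`: the vertices fixed by at least one isomorphism of `G` onto its complement. -/
def fixedVertices {V : Type} (G : SimpleGraph V) : Set V := {v | ∃ P : G ≃g Gᶜ, P v = v}

/-- The number of triangles of `G` which contain the vertex `v`. -/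
noncomputable def trianglesAt {V : Type} (G : SimpleGraph V) (v : V) : ℕ :=
  {s : Finset V | G.IsNClique 3 s ∧ v ∈ s}.ncard

/-- The neighbourhoods of the nine vertices. -/
def nb : Fin 9 → Finset (Fin 9) :=
  ![{1, 3, 5, 7}, {0, 2, 3, 6}, {1, 5, 6, 8}, {0, 1, 4, 8}, {3, 6, 7, 8}, {0, 2, 6, 7},
    {1, 2, 4, 5}, {0, 4, 5, 8}, {2, 3, 4, 7}]

/-- The graph on 9 vertices with neighbourhoods `nb`. -/
def H : SimpleGraph (Fin 9) where
  Adj x y := y ∈ nb x
  symm := ⟨by decide⟩
  loopless := ⟨by decide⟩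

instance : DecidableRel H.Adj := fun x y => inferInstanceAs (Decidable (y ∈ nb x))

/-- An isomorphism of `H` onto its complement, the permutation `(1 2 3 4)(5 6 7 8)`. -/
def anti : H ≃g Hᶜ where
  toFun := ![0, 2, 3, 4, 1, 6, 7, 8, 5]
  invFun := ![0, 4, 1, 2, 3, 8, 5, 6, 7]
  left_inv := by decide
  right_inv := by decide
  map_rel_iff' := by
    intro x y
    revert x y
    decide

theorem degree_H (v : Fin 9) : (H.neighborSet v).ncard = 4 := by
  rw [Set.ncard_eq_toFinset_card']
  revert v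
  decide +kernel

theorem tri : ∀ a b c : Fin 9, b ∈ nb a → c ∈ nb a → c ∈ nb b →
    (1 : Fin 9) ∈ ({a, b, c} : Finset (Fin 9)) →
    ({a, b, c} : Finset (Fin 9)) = {0, 1, 3} ∨ ({a, b, c} : Finset (Fin 9)) = {1, 2, 6} := by
  decide +kernel

theorem fin4 : ∀ a b c d : Fin 9, a ∉ nb 1 → b ∉ nb 1 → 1 ≠ a → 1 ≠ b → a ≠ c → b ≠ d →
    c ∉ nb a → d ∉ nb b → b ∈ nb a → d ∈ nb a → c ∈ nb b → c ∉ nb 1 → d ∉ nb 1 → False := by
  decide +kernel

theorem triangles_H : trianglesAt H 1 = 2 := by
  have h : {s : Finset (Fin 9) | H.IsNClique 3 s ∧ (1 : Fin 9) ∈ s} =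
      (({{0, 1, 3}, {1, 2, 6}} : Finset (Finset (Fin 9))) : Set (Finset (Fin 9))) := by
    ext s
    simp only [Set.mem_ofPred_eq, Finset.coe_insert, Finset.coe_singleton,
      Set.mem_insert_iff, Set.mem_singleton_iff]
    constructor
    · rintro ⟨h1, h2⟩
      rw [is3Clique_iff] at h1
      obtain ⟨a, b, c, hab, hac, hbc, rfl⟩ := h1
      exact tri a b c hab hac hbc h2
    · rintro (rfl | rfl)
      · refine ⟨?_, by decide⟩
        rw [is3Clique_iff]
        exact ⟨0, 1, 3, by decide, by decide, by decide, rfl⟩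
      · refine ⟨?_, by decide⟩
        rw [is3Clique_iff]
        exact ⟨1, 2, 6, by decide, by decide, by decide, rfl⟩
  rw [trianglesAt, h, Set.ncard_coe_finset]
  decide

theorem not_fixed : (1 : Fin 9) ∉ fixedVertices H := by
  rintro ⟨P, hP⟩
  have key : ∀ x y : Fin 9, x ≠ y → (H.Adj x y ↔ ¬ H.Adj (P x) (P y)) := by
    intro x y hxy
    have h1 := P.map_adj_iff (v := x) (w := y)
    rw [compl_adj] at h1
    have h2 : P x ≠ P y := fun h => hxy (P.injective h)
    tauto
  have hinj : ∀ x y : Fin 9, x ≠ y → P x ≠ P y := fun x y hxy h => hxy (P.injective h)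
  have e : ∀ x y : Fin 9, x ≠ y → H.Adj x y → ¬ H.Adj (P x) (P y) :=
    fun x y hxy h => (key x y hxy).1 h
  have f : ∀ x y : Fin 9, x ≠ y → ¬ H.Adj x y → H.Adj (P x) (P y) := by
    intro x y hxy h
    by_contra h2
    exact h ((key x y hxy).2 h2)
  have g1 : ∀ x : Fin 9, (1 : Fin 9) ≠ x → H.Adj 1 x → ¬ H.Adj 1 (P x) := by
    intro x hx h
    have := e 1 x hx h
    rwa [hP] at this
  have g2 : ∀ x : Fin 9, (1 : Fin 9) ≠ x → 1 ≠ P x := by
    intro x hx
    have := hinj 1 x hx
    rwa [hP] at this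
  exact fin4 (P 0) (P 2) (P 3) (P 6) (g1 0 (by decide) (by decide)) (g1 2 (by decide) (by decide))
    (g2 0 (by decide)) (g2 2 (by decide)) (hinj _ _ (by decide)) (hinj _ _ (by decide))
    (e 0 3 (by decide) (by decide)) (e 2 6 (by decide) (by decide))
    (f 0 2 (by decide) (by decide)) (f 0 6 (by decide) (by decide))
    (f 2 3 (by decide) (by decide)) (g1 3 (by decide) (by decide)) (g1 6 (by decide) (by decide))

/-- It is not true that in every regular self-complementary graph on `4k+1` vertices each vertex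
lying in exactly `k(k-1)` triangles is fixed by some isomorphism of the graph onto its complement:
there is a counterexample with `k = 2`. -/
theorem result :
    (¬ ∀ (k : ℕ) (G : SimpleGraph (Fin (4 * k + 1))), (∀ v, (G.neighborSet v).ncard = 2 * k) →
      Nonempty (G ≃g Gᶜ) → ∀ v, trianglesAt G v = k * (k - 1) → v ∈ fixedVertices G) ∧
    (∃ G : SimpleGraph (Fin 9), (∀ v, (G.neighborSet v).ncard = 4) ∧ Nonempty (G ≃g Gᶜ) ∧
      ∃ v, trianglesAt G v = 2 ∧ v ∉ fixedVertices G) := by
  refine ⟨fun h => ?_, H, degree_H, ⟨anti⟩, 1, triangles_H, not_fixed⟩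
  exact not_fixed (h 2 H degree_H ⟨anti⟩ 1 triangles_H)

end Pool.Agent.Results.MP_b6be33_co.NineVertices
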